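import Pool.Agent.H99.QN.FD2

/-! # Board qn (MP_fa59e7_an), row FDT: the first derivative test -/

set_option autoImplicit false

namespace Pool.Agent.H79.QN

open Finset

/-- the form with a sign `s` -/
theorem fdt_aux (θ : ℝ → ℝ) (a b l s : ℝ) (hab : a ≤ b) (hθ : ContDiff ℝ 2 θ) (hl : 0 < l)
    (hs : |s| = 1) (h1 : ∀ x ∈ Set.Icc a b, l ≤ |deriv θ x|)
    (h2 : ∀ x ∈ Set.Icc a b, 0 ≤ s * deriv (deriv θ) x) :
    ‖∫ x in a..b, e (θ x)‖ ≤ 1 / l := by
  have hd : Differentiable ℝ θ := hθ.differentiable (by norm_num)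
  have hθ1 : ContDiff ℝ 1 (deriv θ) := by
    have : ContDiff ℝ (1 + 1) θ := by
      have e1 : ((1 : WithTop ℕ∞) + 1) = 2 := by norm_num
      rw [e1]; exact hθ
    exact (contDiff_succ_iff_deriv.1 this).2.2
  have hd1 : Differentiable ℝ (deriv θ) := hθ1.differentiable (by norm_num)
  have hc1 : Continuous (deriv θ) := hd1.continuous
  have hc2 : Continuous (deriv (deriv θ)) := hθ1.continuous_deriv le_rfl
  have hπ : (2 * (Real.pi : ℂ) * Complex.I) ≠ 0 := by
    simp [Real.pi_ne_zero]
  have hπn : ‖(2 * (Real.pi : ℂ) * Complex.I)‖ = 2 * Real.pi := by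
    rw [norm_mul, norm_mul, Complex.norm_I, mul_one, Complex.norm_real, Real.norm_of_nonneg
      Real.pi_pos.le]
    norm_num
  have hner : ∀ x ∈ Set.Icc a b, deriv θ x ≠ 0 := by
    intro x hx h3
    have h4 := h1 x hx
    rw [h3, abs_zero] at h4
    linarith
  have hne : ∀ x ∈ Set.Icc a b, ((deriv θ x : ℝ) : ℂ) ≠ 0 := by
    intro x hx h
    exact hner x hx (by exact_mod_cast h)
  have hIcc : Set.uIcc a b = Set.Icc a b := Set.uIcc_of_le hab
  set u : ℝ → ℂ := fun x => (2 * (Real.pi : ℂ) * Complex.I)⁻¹ * (((deriv θ x : ℝ) : ℂ))⁻¹ with hu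
  set u' : ℝ → ℂ := fun x => (2 * (Real.pi : ℂ) * Complex.I)⁻¹ *
    (-((deriv (deriv θ) x : ℝ) : ℂ) / ((deriv θ x : ℝ) : ℂ) ^ 2) with hu'
  set v : ℝ → ℂ := fun x => e (θ x) with hv
  set v' : ℝ → ℂ := fun x => 2 * Real.pi * Complex.I * ((deriv θ x : ℝ) : ℂ) * e (θ x) with hv'
  have hU : ∀ x ∈ Set.uIcc a b, HasDerivAt u (u' x) x := by
    intro x hx
    rw [hIcc] at hx
    have h3 : HasDerivAt (fun y => ((deriv θ y : ℝ) : ℂ)) ((deriv (deriv θ) x : ℝ) : ℂ) x :=
      (hd1 x).hasDerivAt.ofReal_comp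
    exact (h3.inv (hne x hx)).const_mul _
  have hV : ∀ x ∈ Set.uIcc a b, HasDerivAt v (v' x) x := by
    intro x _
    exact fd2_deriv_e (hd x).hasDerivAt
  have hU' : IntervalIntegrable u' MeasureTheory.volume a b := by
    refine ContinuousOn.intervalIntegrable ?_
    rw [hIcc]
    refine continuousOn_const.mul (ContinuousOn.div ?_ ?_ ?_)
    · exact (Complex.continuous_ofReal.comp hc2).neg.continuousOn
    · exact ((Complex.continuous_ofReal.comp hc1).pow 2).continuousOn
    · intro x hx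
      exact pow_ne_zero 2 (hne x hx)
  have hV' : IntervalIntegrable v' MeasureTheory.volume a b := by
    refine Continuous.intervalIntegrable ?_ _ _
    exact (continuous_const.mul (Complex.continuous_ofReal.comp hc1)).mul
      (fd2_cont_e.comp hd.continuous)
  have hparts := intervalIntegral.integral_mul_deriv_eq_deriv_mul hU hV hU' hV'
  have hcong : ∫ x in a..b, e (θ x) = ∫ x in a..b, u x * v' x := by
    refine intervalIntegral.integral_congr fun x hx => ?_
    rw [hIcc] at hx
    have := hne x hx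
    simp only [hu, hv']
    field_simp
  rw [hcong, hparts]
  have hub : ∀ x ∈ Set.Icc a b, ‖u x * v x‖ ≤ 1 / (2 * Real.pi * l) := by
    intro x hx
    simp only [hu, hv]
    rw [norm_mul, fd2_norm_e, mul_one, norm_mul, norm_inv, norm_inv, hπn, Complex.norm_real,
      Real.norm_eq_abs, ← mul_inv, ← one_div]
    refine one_div_le_one_div_of_le (by positivity) ?_
    exact mul_le_mul_of_nonneg_left (h1 x hx) (by positivity)
  -- the real integral
  set w' : ℝ → ℝ := fun x => (2 * Real.pi)⁻¹ * (s * (deriv (deriv θ) x / deriv θ x ^ 2)) with hw'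
  have hW : ∀ x ∈ Set.uIcc a b,
      HasDerivAt (fun x => (2 * Real.pi)⁻¹ * (s * (-(deriv θ x)⁻¹))) (w' x) x := by
    intro x hx
    rw [hIcc] at hx
    have h3 := ((((hd1 x).hasDerivAt.inv (hner x hx)).neg).const_mul s).const_mul (2 * Real.pi)⁻¹
    refine h3.congr_deriv ?_
    simp only [hw']
    ring
  have hW' : IntervalIntegrable w' MeasureTheory.volume a b := by
    refine ContinuousOn.intervalIntegrable ?_
    rw [hIcc]
    refine continuousOn_const.mul (continuousOn_const.mul (ContinuousOn.div ?_ ?_ ?_))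
    · exact hc2.continuousOn
    · exact (hc1.pow 2).continuousOn
    · intro x hx
      exact pow_ne_zero 2 (hner x hx)
  have hint : ‖∫ x in a..b, u' x * v x‖ ≤ 1 / (2 * Real.pi * l) + 1 / (2 * Real.pi * l) := by
    have h3 : ‖∫ x in a..b, u' x * v x‖ ≤ ∫ x in a..b, w' x := by
      refine intervalIntegral.norm_integral_le_of_norm_le hab ?_ hW'
      refine Filter.Eventually.of_forall fun x hx => ?_
      have hx' : x ∈ Set.Icc a b := ⟨hx.1.le, hx.2⟩
      simp only [hu', hv, hw']
      rw [norm_mul, fd2_norm_e, mul_one, norm_mul, norm_inv, hπn, norm_div, norm_neg, norm_pow,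
        Complex.norm_real, Complex.norm_real, Real.norm_eq_abs, Real.norm_eq_abs, sq_abs]
      have h4 := h2 x hx'
      have h5 : |deriv (deriv θ) x| = s * deriv (deriv θ) x := by
        rw [← abs_of_nonneg h4, abs_mul, hs, one_mul]
      rw [h5, mul_div_assoc]
    refine h3.trans ?_
    rw [intervalIntegral.integral_eq_sub_of_hasDerivAt hW hW']
    have h6 : ∀ x ∈ Set.Icc a b, |(2 * Real.pi)⁻¹ * (s * (-(deriv θ x)⁻¹))| ≤
        1 / (2 * Real.pi * l) := by
      intro x hx
      rw [abs_mul, abs_mul, hs, one_mul, abs_neg, abs_inv, abs_inv,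
        abs_of_nonneg (by positivity : (0 : ℝ) ≤ 2 * Real.pi), ← mul_inv, ← one_div]
      refine one_div_le_one_div_of_le (by positivity) ?_
      exact mul_le_mul_of_nonneg_left (h1 x hx) (by positivity)
    have h7 := h6 b ⟨hab, le_rfl⟩
    have h8 := h6 a ⟨le_rfl, hab⟩
    rw [abs_le] at h7 h8
    linarith [h7.2, h8.1]
  have hb := hub b ⟨hab, le_rfl⟩
  have ha := hub a ⟨le_rfl, hab⟩
  have htri : ‖u b * v b - u a * v a - ∫ x in a..b, u' x * v x‖ ≤
      1 / (2 * Real.pi * l) + 1 / (2 * Real.pi * l) +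
        (1 / (2 * Real.pi * l) + 1 / (2 * Real.pi * l)) := by
    refine (norm_sub_le _ _).trans (add_le_add ?_ hint)
    exact (norm_sub_le _ _).trans (add_le_add hb ha)
  refine htri.trans ?_
  have h3 : 1 / (2 * Real.pi * l) + 1 / (2 * Real.pi * l) +
        (1 / (2 * Real.pi * l) + 1 / (2 * Real.pi * l)) = (2 / Real.pi) * (1 / l) := by
    field_simp
    norm_num
  rw [h3]
  have h4 : 2 / Real.pi ≤ 1 := by
    rw [div_le_one Real.pi_pos]
    have := Real.pi_gt_three
    linarith
  have h5 : 0 ≤ 1 / l := by positivity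
  nlinarith

theorem fdt : S_FDT := by
  intro θ a b l hab hθ hmon hl h1
  rcases hab.eq_or_lt with rfl | hlt
  · rw [intervalIntegral.integral_same, norm_zero]
    positivity
  have hθ1 : ContDiff ℝ 1 (deriv θ) := by
    have : ContDiff ℝ (1 + 1) θ := by
      have e1 : ((1 : WithTop ℕ∞) + 1) = 2 := by norm_num
      rw [e1]; exact hθ
    exact (contDiff_succ_iff_deriv.1 this).2.2
  have hd1 : Differentiable ℝ (deriv θ) := hθ1.differentiable (by norm_num)
  have hder : ∀ x ∈ Set.Icc a b, derivWithin (deriv θ) (Set.Icc a b) x = deriv (deriv θ) x :=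
    fun x hx => (hd1 x).derivWithin (uniqueDiffOn_Icc hlt x hx)
  rcases hmon with hmon | hmon
  · refine fdt_aux θ a b l 1 hab hθ hl (by norm_num) h1 fun x hx => ?_
    rw [one_mul, ← hder x hx]
    exact hmon.derivWithin_nonneg
  · refine fdt_aux θ a b l (-1) hab hθ hl (by norm_num) h1 fun x hx => ?_
    rw [← hder x hx]
    have := hmon.derivWithin_nonpos (x := x)
    linarith

end Pool.Agent.H79.QN
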